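import Mathlib

/-!
A counterexample in the variety generated by the symmetric group of degree three.

The variety is given by the laws `x ^ 6 = 1` and `x ^ 2 * y ^ 2 = y ^ 2 * x ^ 2`.
The group `P` has generators `t` and `a k` (`k` real), and inside the variety the relations
`(a k) ^ 3 = 1`, `t * a k * t⁻¹ = (a k)⁻¹`.  It is projective in the variety, uncountable, and every
homomorphism that kills `t` is trivial; hence in any decomposition as a coproduct only finitely
many factors are nontrivial.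
-/

set_option autoImplicit false

namespace Pool.Agent.Lib.MP_b442e4_al

/-- The laws of the variety: `x ^ 6` and the commutator of `x ^ 2` and `y ^ 2`. -/
def laws : Set (FreeGroup ℕ) :=
  {(FreeGroup.of 0) ^ 6,
    (FreeGroup.of 0) ^ 2 * (FreeGroup.of 1) ^ 2 * ((FreeGroup.of 1) ^ 2 * (FreeGroup.of 0) ^ 2)⁻¹}

theorem laws_iff (K : Type) [Group K] :
    (∀ w ∈ laws, ∀ f : ℕ → K, FreeGroup.lift f w = 1) ↔
      (∀ a : K, a ^ 6 = 1) ∧ ∀ a b : K, a ^ 2 * b ^ 2 = b ^ 2 * a ^ 2 := by
  constructor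
  · intro h
    refine ⟨fun a => ?_, fun a b => ?_⟩
    · have := h _ (Or.inl rfl) (fun _ => a)
      simpa using this
    · have := h _ (Or.inr rfl) (fun n => if n = 0 then a else b)
      simp only [map_mul, map_pow, map_inv, FreeGroup.lift_apply_of, if_true, one_ne_zero,
        if_false] at this
      exact mul_inv_eq_one.mp this
  · rintro ⟨h6, h2⟩ w hw f
    rcases hw with rfl | rfl
    · simp [h6]
    · simp only [map_mul, map_pow, map_inv, FreeGroup.lift_apply_of]
      exact mul_inv_eq_one.mpr (h2 _ _)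

/-- The defining relations of the counterexample. -/
def rels : Set (FreeGroup (Option ℝ)) :=
  {r | (∃ u, r = u ^ 6) ∨ (∃ u v, r = u ^ 2 * v ^ 2 * (v ^ 2 * u ^ 2)⁻¹) ∨
    (∃ k, r = (FreeGroup.of (some k)) ^ 3) ∨
    (∃ k, r = FreeGroup.of none * FreeGroup.of (some k) * (FreeGroup.of none)⁻¹ *
      FreeGroup.of (some k))}

/-- The counterexample. -/
abbrev P : Type := PresentedGroup rels

/-- The generator acting by inversion. -/
def t : P := PresentedGroup.of none

/-- The generators of order three. -/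
def a (k : ℝ) : P := PresentedGroup.of (some k)

theorem P_pow_six (g : P) : g ^ 6 = 1 := by
  obtain ⟨u, rfl⟩ := PresentedGroup.mk_surjective rels g
  rw [← map_pow]
  exact PresentedGroup.one_of_mem (Or.inl ⟨u, rfl⟩)

theorem P_sq_comm (g h : P) : g ^ 2 * h ^ 2 = h ^ 2 * g ^ 2 := by
  obtain ⟨u, rfl⟩ := PresentedGroup.mk_surjective rels g
  obtain ⟨v, rfl⟩ := PresentedGroup.mk_surjective rels h
  have := PresentedGroup.one_of_mem (rels := rels) (Or.inr (Or.inl ⟨u, v, rfl⟩))
  simp only [map_mul, map_pow, map_inv] at this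
  exact mul_inv_eq_one.mp this

theorem P_laws : ∀ w ∈ laws, ∀ f : ℕ → P, FreeGroup.lift f w = 1 :=
  (laws_iff P).mpr ⟨P_pow_six, P_sq_comm⟩

theorem a_pow_three (k : ℝ) : a k ^ 3 = 1 := by
  have := PresentedGroup.one_of_mem (rels := rels) (Or.inr (Or.inr (Or.inl ⟨k, rfl⟩)))
  rw [map_pow] at this
  exact this

theorem t_conj_a (k : ℝ) : t * a k * t⁻¹ * a k = 1 := by
  have := PresentedGroup.one_of_mem (rels := rels) (Or.inr (Or.inr (Or.inr ⟨k, rfl⟩)))
  simp only [map_mul, map_inv] at this
  exact this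

/-- The universal property of `P` inside the variety. -/
theorem exists_hom (K : Type) [Group K] (h6 : ∀ x : K, x ^ 6 = 1)
    (h2 : ∀ x y : K, x ^ 2 * y ^ 2 = y ^ 2 * x ^ 2) (s : K) (d : ℝ → K)
    (hd3 : ∀ k, d k ^ 3 = 1) (hsd : ∀ k, s * d k * s⁻¹ * d k = 1) :
    ∃ θ : P →* K, θ t = s ∧ ∀ k, θ (a k) = d k := by
  let f : Option ℝ → K := fun o => match o with
    | none => s
    | some k => d k
  have hf : ∀ r ∈ rels, FreeGroup.lift f r = 1 := by
    rintro r (⟨u, rfl⟩ | ⟨u, v, rfl⟩ | ⟨k, rfl⟩ | ⟨k, rfl⟩)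
    · rw [map_pow]; exact h6 _
    · simp only [map_mul, map_pow, map_inv]
      exact mul_inv_eq_one.mpr (h2 _ _)
    · simp only [map_pow, FreeGroup.lift_apply_of]
      exact hd3 k
    · simp only [map_mul, map_inv, FreeGroup.lift_apply_of]
      exact hsd k
  exact ⟨PresentedGroup.toGroup hf, PresentedGroup.toGroup.of hf,
    fun k => PresentedGroup.toGroup.of hf⟩

theorem hom_ext {K : Type} [Group K] {θ₁ θ₂ : P →* K} (ht : θ₁ t = θ₂ t)
    (ha : ∀ k, θ₁ (a k) = θ₂ (a k)) : θ₁ = θ₂ := by
  apply PresentedGroup.ext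
  rintro (_ | k)
  · exact ht
  · exact ha k

/-- A homomorphism that kills `t` is trivial. -/
theorem hom_eq_one {K : Type} [Group K] (θ : P →* K) (ht : θ t = 1) : θ = 1 := by
  apply hom_ext
  · simpa using ht
  · intro k
    have h3 : θ (a k) ^ 3 = 1 := by rw [← map_pow, a_pow_three, map_one]
    have h2 : θ (a k) * θ (a k) = 1 := by
      have := congrArg θ (t_conj_a k)
      simpa [ht] using this
    have : θ (a k) = 1 := by
      have h4 : θ (a k) ^ 3 = θ (a k) * θ (a k) * θ (a k) := by
        rw [pow_succ, pow_two]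
      rw [h4, h2, one_mul] at h3
      exact h3
    simpa using this

/-- In the variety, an element of order dividing three commutes with every square. -/
theorem comm_sq {A : Type} [Group A] (h2 : ∀ x y : A, x ^ 2 * y ^ 2 = y ^ 2 * x ^ 2)
    {c : A} (hc : c ^ 3 = 1) (y : A) : Commute c (y ^ 2) := by
  have h : c = (c ^ 2) ^ 2 := by
    rw [← pow_mul, show 2 * 2 = 3 + 1 from rfl, pow_succ, hc, one_mul]
  have := h2 (c ^ 2) y
  rw [← h] at this
  exact this

theorem comm_three {A : Type} [Group A] (h2 : ∀ x y : A, x ^ 2 * y ^ 2 = y ^ 2 * x ^ 2)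
    {c e : A} (hc : c ^ 3 = 1) (he : e ^ 3 = 1) : Commute c e := by
  have h : e = (e ^ 2) ^ 2 := by
    rw [← pow_mul, show 2 * 2 = 3 + 1 from rfl, pow_succ, he, one_mul]
  rw [h]
  exact comm_sq h2 hc _

/-- `P` is projective in the variety. -/
theorem P_projective (A B : Type) [Group A] [Group B]
    (hA : ∀ w ∈ laws, ∀ f : ℕ → A, FreeGroup.lift f w = 1)
    (π : A →* B) (hπ : Function.Surjective π) (φ : P →* B) :
    ∃ ψ : P →* A, π.comp ψ = φ := by
  obtain ⟨h6, h2⟩ := (laws_iff A).mp hA
  obtain ⟨s, hs⟩ := hπ (φ t)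
  choose b hb using fun k => hπ (φ (a k))
  have hc3 : ∀ k, (b k ^ 4) ^ 3 = 1 := by
    intro k
    rw [← pow_mul, show 4 * 3 = 6 * 2 from rfl, pow_mul, h6, one_pow]
  have he3 : ∀ k, (s * b k ^ 4 * s⁻¹) ^ 3 = 1 := by
    intro k
    rw [conj_pow, hc3, mul_one, mul_inv_cancel]
  have hcomm : ∀ k, Commute (b k ^ 4) (s * b k ^ 4 * s⁻¹) :=
    fun k => comm_three h2 (hc3 k) (he3 k)
  obtain ⟨ψ, hψt, hψa⟩ := exists_hom A h6 h2 s (fun k => (b k ^ 4)⁻¹ * (s * b k ^ 4 * s⁻¹))
    (fun k => by
      rw [(hcomm k).inv_left.mul_pow, inv_pow, hc3, he3, inv_one, one_mul])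
    (fun k => by
      have h1 : s ^ 2 * b k ^ 4 = b k ^ 4 * s ^ 2 := ((comm_sq h2 (hc3 k) s).eq).symm
      generalize b k ^ 4 = c at h1
      have h3 : s * (s * c * s⁻¹) * s⁻¹ = c := by
        have : s * (s * c * s⁻¹) * s⁻¹ = (s ^ 2 * c) * (s ^ 2)⁻¹ := by
          rw [pow_two]; group
        rw [this, h1, mul_inv_cancel_right]
      have h4 : s * (c⁻¹ * (s * c * s⁻¹)) * s⁻¹ * (c⁻¹ * (s * c * s⁻¹))
          = (s * c * s⁻¹)⁻¹ * (s * (s * c * s⁻¹) * s⁻¹) * (c⁻¹ * (s * c * s⁻¹)) := by
        group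
      rw [h4, h3]
      group)
  refine ⟨ψ, hom_ext ?_ ?_⟩
  · simp [hψt, hs]
  · intro k
    have h3 : φ (a k) ^ 3 = 1 := by rw [← map_pow, a_pow_three, map_one]
    have h4 : φ (a k) ^ 4 = φ (a k) := by
      rw [show 4 = 3 + 1 from rfl, pow_succ, h3, one_mul]
    have h5 : φ t * φ (a k) * (φ t)⁻¹ = (φ (a k))⁻¹ := by
      have := congrArg φ (t_conj_a k)
      simp only [map_mul, map_inv, map_one] at this
      exact eq_inv_of_mul_eq_one_left this
    simp only [MonoidHom.comp_apply, hψa, map_mul, map_inv, map_pow, hb, hs, h4, h5]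
    have h6' : φ (a k) ^ 3 = φ (a k) * φ (a k) * φ (a k) := by rw [pow_succ, pow_two]
    rw [h6'] at h3
    rw [← mul_inv_rev, inv_eq_iff_mul_eq_one]
    exact h3

theorem a_injective : Function.Injective a := by
  intro j k hjk
  by_contra hne
  have h6 : ∀ x : DihedralGroup 3, x ^ 6 = 1 := by decide
  have h2 : ∀ x y : DihedralGroup 3, x ^ 2 * y ^ 2 = y ^ 2 * x ^ 2 := by decide
  classical
  obtain ⟨θ, -, hθ⟩ := exists_hom (DihedralGroup 3) h6 h2 (DihedralGroup.sr 0)
    (fun l => if l = j then DihedralGroup.r 1 else 1)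
    (fun l => by split_ifs <;> decide) (fun l => by split_ifs <;> decide)
  have h1 := hθ j
  have h3 := hθ k
  rw [hjk, h3, if_pos rfl, if_neg (fun h => hne h.symm)] at h1
  revert h1
  decide

theorem P_not_countable : ¬ Countable P := by
  intro h
  exact not_countable (α := ℝ) (a_injective.countable)

theorem countable_closure {G : Type} [Group G] {s : Set G} (hs : s.Countable) :
    ((Subgroup.closure s : Subgroup G) : Set G).Countable := by
  have : Countable s := hs.to_subtype
  have h : (FreeGroup.lift (fun x : s => (x : G))).range = Subgroup.closure s := by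
    rw [FreeGroup.range_lift_eq_closure, Subtype.range_coe]
  rw [← h, MonoidHom.coe_range]
  exact Set.countable_range _

theorem countable_of_closure {G : Type} [Group G] {s : Set G} (hs : s.Countable)
    (h : Subgroup.closure s = ⊤) : Countable G := by
  have := countable_closure hs
  rw [h, Subgroup.coe_top] at this
  exact Set.countable_univ_iff.mp this

theorem P_not_fg : ¬ Group.FG P := by
  intro h
  obtain ⟨s, hs, hf⟩ := Group.fg_iff.mp h
  exact P_not_countable (countable_of_closure hf.countable hs)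

/-- `P` is not a coproduct, inside the variety, of countable groups. -/
theorem P_not_coproduct (I : Type) (H : I → Type) [∀ i, Group (H i)] (ι : ∀ i, H i →* P)
    (hH : ∀ i, Countable (H i))
    (hU : ∀ (K : Type) [Group K], (∀ w ∈ laws, ∀ f : ℕ → K, FreeGroup.lift f w = 1) →
        ∀ g : ∀ i, H i →* K, ∃! θ : P →* K, ∀ i, θ.comp (ι i) = g i) : False := by
  classical
  let gen : Set I → Subgroup P := fun F => Subgroup.closure (⋃ i ∈ F, Set.range (ι i))
  have hmono : ∀ F F' : Set I, F ⊆ F' → gen F ≤ gen F' := fun F F' h =>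
    Subgroup.closure_mono (Set.biUnion_subset_biUnion_left h)
  have hmem : ∀ (F : Set I) (i : I), i ∈ F → ∀ x, ι i x ∈ gen F := fun F i hi x =>
    Subgroup.subset_closure (Set.mem_biUnion hi (Set.mem_range_self x))
  -- the images of the factors generate
  have htop : ∀ g : P, g ∈ gen Set.univ := by
    have hlaw : ∀ w ∈ laws, ∀ f : ℕ → gen Set.univ, FreeGroup.lift f w = 1 := by
      refine (laws_iff _).mpr ⟨fun x => Subtype.ext ?_, fun x y => Subtype.ext ?_⟩
      · simpa using P_pow_six x.1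
      · simpa using P_sq_comm x.1 y.1
    obtain ⟨θ, hθ, -⟩ := hU (gen Set.univ) hlaw
      (fun i => (ι i).codRestrict _ (hmem _ i (Set.mem_univ i)))
    obtain ⟨θ', -, huniq⟩ := hU P P_laws ι
    have h1 : (gen Set.univ).subtype.comp θ = θ' := by
      apply huniq
      intro i
      rw [MonoidHom.comp_assoc, hθ i]
      ext x
      simp
    have h2 : MonoidHom.id P = θ' := by
      apply huniq
      intro i
      simp
    intro g
    have h3 : ((gen Set.univ).subtype.comp θ) g = g := by rw [h1, ← h2]; rfl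
    rw [← h3]
    exact (θ g).2
  -- every element lies in the subgroup generated by finitely many factors
  have hfin : ∀ g : P, ∃ F : Set I, F.Finite ∧ g ∈ gen F := by
    intro g
    refine Subgroup.closure_induction (p := fun x _ => ∃ F : Set I, F.Finite ∧ x ∈ gen F)
      ?_ ?_ ?_ ?_ (htop g)
    · intro x hx
      simp only [Set.mem_univ, Set.iUnion_true, Set.mem_iUnion, Set.mem_range] at hx
      obtain ⟨i, y, rfl⟩ := hx
      exact ⟨{i}, Set.finite_singleton i, hmem {i} i (Set.mem_singleton i) y⟩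
    · exact ⟨∅, Set.finite_empty, one_mem _⟩
    · rintro x y - - ⟨F, hF, hx⟩ ⟨F', hF', hy⟩
      exact ⟨F ∪ F', hF.union hF', mul_mem (hmono _ _ Set.subset_union_left hx)
        (hmono _ _ Set.subset_union_right hy)⟩
    · rintro x - ⟨F, hF, hx⟩
      exact ⟨F, hF, inv_mem hx⟩
  obtain ⟨F, hF, htF⟩ := hfin t
  obtain ⟨θ, hθ, -⟩ := hU P P_laws (fun i => if i ∈ F then 1 else ι i)
  have hker : gen F ≤ θ.ker := by
    refine (Subgroup.closure_le _).mpr ?_
    intro x hx
    simp only [Set.mem_iUnion, Set.mem_range] at hx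
    obtain ⟨i, hi, y, rfl⟩ := hx
    have := DFunLike.congr_fun (hθ i) y
    rw [if_pos hi] at this
    exact this
  have hθ1 : θ = 1 := hom_eq_one θ (hker htF)
  have hall : gen Set.univ ≤ gen F := by
    refine (Subgroup.closure_le _).mpr ?_
    intro x hx
    simp only [Set.mem_univ, Set.iUnion_true, Set.mem_iUnion, Set.mem_range] at hx
    obtain ⟨i, y, rfl⟩ := hx
    by_cases hi : i ∈ F
    · exact hmem F i hi y
    · have := DFunLike.congr_fun (hθ i) y
      rw [if_neg hi, hθ1] at this
      have h1 : ι i y = 1 := by simpa using this.symm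
      rw [h1]
      exact one_mem _
  apply P_not_countable
  refine countable_of_closure (s := ⋃ i ∈ F, Set.range (ι i)) ?_ ?_
  · exact hF.countable.biUnion (fun i _ => Set.countable_range _)
  · exact eq_top_iff.mpr (fun g _ => hall (htop g))

end Pool.Agent.Lib.MP_b442e4_al
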