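import Pool.Agent.Lib.MP_b442e4_al.Basic

/-! The counterexample against families indexed in arbitrary universes. -/

set_option autoImplicit false

namespace Pool.Agent.Lib.MP_b442e4_al

universe u v

theorem countable_of_closure_univ {G : Type u} [Group G] {s : Set G} (hs : s.Countable)
    (h : Subgroup.closure s = ⊤) : Countable G := by
  have : Countable s := hs.to_subtype
  have h1 : (FreeGroup.lift (fun x : s => (x : G))).range = ⊤ := by
    rw [FreeGroup.range_lift_eq_closure, Subtype.range_coe, h]
  exact (MonoidHom.range_eq_top.1 h1).countable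

/-- `P` is not a coproduct, inside the variety, of countable groups. -/
theorem P_not_coproduct_univ (I : Type u) (H : I → Type v) [∀ i, Group (H i)] (ι : ∀ i, H i →* P)
    (hH : ∀ i, Countable (H i))
    (hU : ∀ (K : Type) [Group K], (∀ w ∈ laws, ∀ f : ℕ → K, FreeGroup.lift f w = 1) →
        ∀ g : ∀ i, H i →* K, ∃! θ : P →* K, ∀ i, θ.comp (ι i) = g i) : False := by
  classical
  let gen : Set I → Subgroup P := fun F => Subgroup.closure (⋃ i ∈ F, Set.range (ι i))
  have hmono : ∀ F F' : Set I, F ⊆ F' → gen F ≤ gen F' := fun F F' h =>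
    Subgroup.closure_mono (Set.biUnion_subset_biUnion_left h)
  have hmem : ∀ (F : Set I) (i : I), i ∈ F → ∀ x, ι i x ∈ gen F := fun F i hi x =>
    Subgroup.subset_closure (Set.mem_biUnion hi (Set.mem_range_self x))
  -- the images of the factors generate
  have htop : ∀ g : P, g ∈ gen Set.univ := by
    have hlaw : ∀ w ∈ laws, ∀ f : ℕ → gen Set.univ, FreeGroup.lift f w = 1 := by
      refine (laws_iff _).mpr ⟨fun x => Subtype.ext ?_, fun x y => Subtype.ext ?_⟩
      · simpa using P_pow_six x.1
      · simpa using P_sq_comm x.1 y.1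
    obtain ⟨θ, hθ, -⟩ := hU (gen Set.univ) hlaw
      (fun i => (ι i).codRestrict _ (hmem _ i (Set.mem_univ i)))
    obtain ⟨θ', -, huniq⟩ := hU P P_laws ι
    have h1 : (gen Set.univ).subtype.comp θ = θ' := by
      apply huniq
      intro i
      rw [MonoidHom.comp_assoc, hθ i]
      ext x
      simp
    have h2 : MonoidHom.id P = θ' := by
      apply huniq
      intro i
      simp
    intro g
    have h3 : ((gen Set.univ).subtype.comp θ) g = g := by rw [h1, ← h2]; rfl
    rw [← h3]
    exact (θ g).2
  -- every element lies in the subgroup generated by finitely many factors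
  have hfin : ∀ g : P, ∃ F : Set I, F.Finite ∧ g ∈ gen F := by
    intro g
    refine Subgroup.closure_induction (p := fun x _ => ∃ F : Set I, F.Finite ∧ x ∈ gen F)
      ?_ ?_ ?_ ?_ (htop g)
    · intro x hx
      simp only [Set.mem_univ, Set.iUnion_true, Set.mem_iUnion, Set.mem_range] at hx
      obtain ⟨i, y, rfl⟩ := hx
      exact ⟨{i}, Set.finite_singleton i, hmem {i} i (Set.mem_singleton i) y⟩
    · exact ⟨∅, Set.finite_empty, one_mem _⟩
    · rintro x y - - ⟨F, hF, hx⟩ ⟨F', hF', hy⟩
      exact ⟨F ∪ F', hF.union hF', mul_mem (hmono _ _ Set.subset_union_left hx)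
        (hmono _ _ Set.subset_union_right hy)⟩
    · rintro x - ⟨F, hF, hx⟩
      exact ⟨F, hF, inv_mem hx⟩
  obtain ⟨F, hF, htF⟩ := hfin t
  obtain ⟨θ, hθ, -⟩ := hU P P_laws (fun i => if i ∈ F then 1 else ι i)
  have hker : gen F ≤ θ.ker := by
    refine (Subgroup.closure_le _).mpr ?_
    intro x hx
    simp only [Set.mem_iUnion, Set.mem_range] at hx
    obtain ⟨i, hi, y, rfl⟩ := hx
    have := DFunLike.congr_fun (hθ i) y
    rw [if_pos hi] at this
    exact this
  have hθ1 : θ = 1 := hom_eq_one θ (hker htF)
  have hall : gen Set.univ ≤ gen F := by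
    refine (Subgroup.closure_le _).mpr ?_
    intro x hx
    simp only [Set.mem_univ, Set.iUnion_true, Set.mem_iUnion, Set.mem_range] at hx
    obtain ⟨i, y, rfl⟩ := hx
    by_cases hi : i ∈ F
    · exact hmem F i hi y
    · have := DFunLike.congr_fun (hθ i) y
      rw [if_neg hi, hθ1] at this
      have h1 : ι i y = 1 := by simpa using this.symm
      rw [h1]
      exact one_mem _
  apply P_not_countable
  refine countable_of_closure (s := ⋃ i ∈ F, Set.range (ι i)) ?_ ?_
  · exact hF.countable.biUnion (fun i _ => Set.countable_range _)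
  · exact eq_top_iff.mpr (fun g _ => hall (htop g))

end Pool.Agent.Lib.MP_b442e4_al
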